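import Pool.Agent.Lib_helper51.GL.Defs
import Pool.Agent.Lib_helper81.PQ.CHI

/-! Project GL (MP_05dcdc_nt), block CHG: the genus characters. -/

set_option autoImplicit false

namespace Pool.Agent.GL

open Finset Pool.Agent.PQ Pool.Agent.TM32

theorem chg (n : ℕ) [NeZero n] (p : ℕ) (hp : p ∣ n) : ∃ χ : ClassGroup (Od n) →* ℤˣ,
    ∀ (C : ClassGroup (Od n)) (a : ℕ) (r : ℤ), Rp n C a r → ((χ C : ℤˣ) : ℤ) = jacobiSym a p := by
  choose mm rr hh using rp_exists n
  let s : ClassGroup (Od n) → ℤˣ := fun C => if jacobiSym (mm C) p = 1 then 1 else -1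
  have hs : ∀ C, ((s C : ℤˣ) : ℤ) = jacobiSym (mm C) p := fun C => by
    simp only [s]
    rcases jacobiSym.eq_one_or_neg_one (chi_gcd (hh C) hp) with h3 | h3
    · rw [if_pos h3, h3]
      rfl
    · rw [if_neg (by rw [h3]; norm_num), h3]
      rfl
  have hall : ∀ (C : ClassGroup (Od n)) (m : ℕ) (r : ℤ), Rp n C m r →
      ((s C : ℤˣ) : ℤ) = jacobiSym m p := fun C m r h => by
    rw [hs, chi_well (hh C) h hp]
  have hmul : ∀ C C', s (C * C') = s C * s C' := fun C C' => by
    have h := chi_three (hh C) (hh C') (hh (C * C')) hp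
    rw [← hs, ← hs, ← hs] at h
    have h2 : s C * s C' * s (C * C') = 1 := by
      ext
      push_cast
      exact h
    have h3 : s (C * C') = (s C * s C')⁻¹ := (eq_inv_of_mul_eq_one_right h2)
    rw [h3, Int.units_inv_eq_self]
  exact ⟨MonoidHom.mk' s hmul, hall⟩

end Pool.Agent.GL
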